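import Pool.Agent.Helper442.FE.Link

/-! Matroids with a minor isomorphic to the cycle matroid of the complete graph on four vertices,
in terms of rank functions: closure properties of the class of matroids without such a minor. -/

namespace Pool.Agent.U356.CM

open Set Pool.Agent.Helper442.FE

/-- The four triangles of the complete graph on four vertices, whose edges are numbered
`02, 01, 03, 12, 13, 23`. -/
def lines : Finset (Finset (Fin 6)) := {{0, 1, 3}, {1, 2, 4}, {0, 2, 5}, {3, 4, 5}}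

/-- The rank function of the cycle matroid of the complete graph on four vertices. -/
def rho (S : Finset (Fin 6)) : ℤ := if S.card ≤ 2 then S.card else if S ∈ lines then 2 else 3

/-- The matroid `M` has a minor which is a copy of the cycle matroid of the complete graph on four
vertices: contract `C` and restrict to the six elements `v i`. -/
def HasK4 {α : Type} (M : Matroid α) : Prop :=
  ∃ (C : Set α) (v : Fin 6 → α), ∀ S : Finset (Fin 6), rk M (C ∪ v '' S) = rk M C + rho S

section rank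

variable {α : Type} {M : Matroid α}

theorem rk_submod_of (hM : M.E.Finite) {X Y U I : Set α} (hU : U ⊆ X ∪ Y) (h1 : I ⊆ X)
    (h2 : I ⊆ Y) : rk M U + rk M I ≤ rk M X + rk M Y := by
  have h3 := rk_submod hM X Y
  have h4 := rk_mono hM hU
  have h5 := rk_mono hM (subset_inter h1 h2)
  linarith

theorem exists_rk_insert (hM : M.E.Finite) {C F : Set α} (h : rk M C < rk M (C ∪ F)) :
    ∃ d ∈ F, rk M (insert d C) = rk M C + 1 := by
  by_contra hcon
  push Not at hcon
  have h1 : ∀ d ∈ F, rk M (insert d C) = rk M C := by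
    intro d hd
    have h2 := hcon d hd
    have h3 := rk_insert_le hM C d
    have h4 := rk_mono hM (subset_insert d C)
    omega
  have h3 : rk M (C ∪ (F ∩ M.E)) ≤ rk M C := by
    have hfin : (F ∩ M.E).Finite := hM.subset inter_subset_right
    refine Set.Finite.induction_on_subset (motive := fun T _ => rk M (C ∪ T) ≤ rk M C) _ hfin
      (by simp) ?_
    intro a T ha _ _ ih
    have h5 := rk_submod_of hM (X := C ∪ T) (Y := insert a C) (U := C ∪ insert a T) (I := C)
      (by intro t; simp only [mem_union, mem_insert_iff]; tauto) subset_union_left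
      (subset_insert _ _)
    have h6 := h1 a ha.1
    linarith
  have h4 : rk M (C ∪ F) ≤ rk M (C ∪ (F ∩ M.E)) := by
    rw [← rk_inter_ground M (C ∪ F)]
    refine rk_mono hM ?_
    rintro t ⟨ht | ht, ht'⟩
    · exact Or.inl ht
    · exact Or.inr ⟨ht, ht'⟩
  linarith

end rank


section pext

variable {α : Type} {M : Matroid α}

/-- Notation-free helper: rank of `C ∪ v '' S`. -/
noncomputable def g (M : Matroid α) (C : Set α) (v : Fin 6 → α) (S : Finset (Fin 6)) : ℤ :=
  rk M (C ∪ v '' S) - rk M C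

/-- Rank of `C ∪ F ∪ v '' S`. -/
noncomputable def h (M : Matroid α) (C F : Set α) (v : Fin 6 → α) (S : Finset (Fin 6)) : ℤ :=
  rk M (C ∪ F ∪ v '' S) - rk M C

variable (hM : M.E.Finite) (C F : Set α) (v : Fin 6 → α)

include hM

theorem g_sub {S T U I : Finset (Fin 6)} (hU : U ⊆ S ∪ T) (hI : I ⊆ S ∩ T) :
    g M C v U + g M C v I ≤ g M C v S + g M C v T := by
  have h1 := rk_submod_of hM (X := C ∪ v '' S) (Y := C ∪ v '' T) (U := C ∪ v '' U)
    (I := C ∪ v '' I) (by
      rintro t (ht | ⟨i, hi, rfl⟩)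
      · exact Or.inl (Or.inl ht)
      · rcases Finset.mem_union.1 (hU hi) with h | h
        · exact Or.inl (Or.inr ⟨i, h, rfl⟩)
        · exact Or.inr (Or.inr ⟨i, h, rfl⟩))
    (by
      rintro t (ht | ⟨i, hi, rfl⟩)
      · exact Or.inl ht
      · exact Or.inr ⟨i, (Finset.mem_inter.1 (hI hi)).1, rfl⟩)
    (by
      rintro t (ht | ⟨i, hi, rfl⟩)
      · exact Or.inl ht
      · exact Or.inr ⟨i, (Finset.mem_inter.1 (hI hi)).2, rfl⟩)
  unfold g
  linarith

theorem h_sub {S T U I : Finset (Fin 6)} (hU : U ⊆ S ∪ T) (hI : I ⊆ S ∩ T) :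
    h M C F v U + h M C F v I ≤ h M C F v S + h M C F v T := by
  have h1 := rk_submod_of hM (X := C ∪ F ∪ v '' S) (Y := C ∪ F ∪ v '' T) (U := C ∪ F ∪ v '' U)
    (I := C ∪ F ∪ v '' I) (by
      rintro t (ht | ⟨i, hi, rfl⟩)
      · exact Or.inl (Or.inl ht)
      · rcases Finset.mem_union.1 (hU hi) with h | h
        · exact Or.inl (Or.inr ⟨i, h, rfl⟩)
        · exact Or.inr (Or.inr ⟨i, h, rfl⟩))
    (by
      rintro t (ht | ⟨i, hi, rfl⟩)
      · exact Or.inl ht
      · exact Or.inr ⟨i, (Finset.mem_inter.1 (hI hi)).1, rfl⟩)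
    (by
      rintro t (ht | ⟨i, hi, rfl⟩)
      · exact Or.inl ht
      · exact Or.inr ⟨i, (Finset.mem_inter.1 (hI hi)).2, rfl⟩)
  unfold h
  linarith

theorem hg_sub {S T U I : Finset (Fin 6)} (hU : U ⊆ S ∪ T) (hI : I ⊆ S ∩ T) :
    h M C F v U + g M C v I ≤ h M C F v S + g M C v T := by
  have h1 := rk_submod_of hM (X := C ∪ F ∪ v '' S) (Y := C ∪ v '' T) (U := C ∪ F ∪ v '' U)
    (I := C ∪ v '' I) (by
      rintro t (ht | ⟨i, hi, rfl⟩)
      · exact Or.inl (Or.inl ht)
      · rcases Finset.mem_union.1 (hU hi) with h | h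
        · exact Or.inl (Or.inr ⟨i, h, rfl⟩)
        · exact Or.inr (Or.inr ⟨i, h, rfl⟩))
    (by
      rintro t (ht | ⟨i, hi, rfl⟩)
      · exact Or.inl (Or.inl ht)
      · exact Or.inr ⟨i, (Finset.mem_inter.1 (hI hi)).1, rfl⟩)
    (by
      rintro t (ht | ⟨i, hi, rfl⟩)
      · exact Or.inl ht
      · exact Or.inr ⟨i, (Finset.mem_inter.1 (hI hi)).2, rfl⟩)
  unfold g h
  linarith

theorem g_le_h (S : Finset (Fin 6)) : g M C v S ≤ h M C F v S := by
  have : rk M (C ∪ v '' S) ≤ rk M (C ∪ F ∪ v '' S) := rk_mono hM (by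
    rintro t (ht | ht)
    · exact Or.inl (Or.inl ht)
    · exact Or.inr ht)
  unfold g h
  linarith

theorem h_mono {S T : Finset (Fin 6)} (hST : S ⊆ T) : h M C F v S ≤ h M C F v T := by
  have : rk M (C ∪ F ∪ v '' S) ≤ rk M (C ∪ F ∪ v '' T) := rk_mono hM (by
    rintro t (ht | ⟨i, hi, rfl⟩)
    · exact Or.inl ht
    · exact Or.inr ⟨i, hST hi, rfl⟩)
  unfold h
  linarith

theorem g_mono {S T : Finset (Fin 6)} (hST : S ⊆ T) : g M C v S ≤ g M C v T := by
  have : rk M (C ∪ v '' S) ≤ rk M (C ∪ v '' T) := rk_mono hM (by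
    rintro t (ht | ⟨i, hi, rfl⟩)
    · exact Or.inl ht
    · exact Or.inr ⟨i, hST hi, rfl⟩)
  unfold g
  linarith

omit hM in
theorem g_empty : g M C v ∅ = 0 := by
  unfold g
  simp

theorem g_singleton (i : Fin 6) : g M C v {i} ≤ 1 := by
  unfold g
  have h1 := rk_insert_le hM C (v i)
  have h2 : C ∪ v '' (({i} : Finset (Fin 6)) : Set (Fin 6)) = insert (v i) C := by
    ext t
    simp only [Finset.coe_singleton, image_singleton, mem_union, mem_singleton_iff, mem_insert_iff]
    tauto
  rw [h2]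
  linarith

end pext

end Pool.Agent.U356.CM
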