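import Pool.Agent.U356.CM.Pext

/-! Closure properties of the class of matroids without an `M(K₄)`-minor. -/

namespace Pool.Agent.U356.CM

open Set Pool.Agent.Helper442.FE
open scoped Matroid

variable {α β : Type} {M : Matroid α}

theorem HasK4.norm (h : HasK4 M) : ∃ (C : Set α) (v : Fin 6 → α),
    C ⊆ M.E ∧ Function.Injective v ∧ (∀ i, v i ∈ M.E) ∧ (∀ i, v i ∉ C) ∧
    ∀ S : Finset (Fin 6), rk M (C ∪ v '' S) = rk M C + rho S := by
  obtain ⟨C, v, hC⟩ := h
  have h1 : ∀ i, v i ∈ M.E ∧ v i ∉ C := by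
    intro i
    have k1 := hC {i}
    rw [rho_singleton] at k1
    constructor
    · by_contra hi
      have k2 : (C ∪ v '' (({i} : Finset (Fin 6)) : Set (Fin 6))) ∩ M.E = C ∩ M.E := by
        ext t
        simp only [Finset.coe_singleton, image_singleton, mem_inter_iff, mem_union,
          mem_singleton_iff]
        constructor
        · rintro ⟨h1 | rfl, h2⟩
          · exact ⟨h1, h2⟩
          · exact absurd h2 hi
        · rintro ⟨h1, h2⟩
          exact ⟨Or.inl h1, h2⟩
      rw [← rk_inter_ground M (C ∪ _), k2, rk_inter_ground] at k1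
      omega
    · intro hi
      have k2 : C ∪ v '' (({i} : Finset (Fin 6)) : Set (Fin 6)) = C := by
        simp only [Finset.coe_singleton, image_singleton]
        exact union_eq_self_of_subset_right (by simpa using hi)
      rw [k2] at k1
      omega
  refine ⟨C ∩ M.E, v, inter_subset_right, ?_, fun i => (h1 i).1, fun i hi => (h1 i).2 hi.1, ?_⟩
  · intro i j hij
    by_contra hne
    have k1 := hC {i}
    have k2 := hC {i, j}
    have k3 : rho {i, j} = 2 := by
      unfold rho
      rw [Finset.card_pair hne]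
      simp
    rw [rho_singleton] at k1
    rw [k3] at k2
    have k4 : v '' (({i, j} : Finset (Fin 6)) : Set (Fin 6)) =
        v '' (({i} : Finset (Fin 6)) : Set (Fin 6)) := by
      simp [image_insert_eq, hij]
    rw [k4] at k2
    omega
  · intro S
    have k1 : C ∩ M.E ∪ v '' S = (C ∪ v '' S) ∩ M.E := by
      ext t
      simp only [mem_inter_iff, mem_union, mem_image]
      constructor
      · rintro (h | ⟨i, hi, rfl⟩)
        · exact ⟨Or.inl h.1, h.2⟩
        · exact ⟨Or.inr ⟨i, hi, rfl⟩, (h1 i).1⟩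
      · rintro ⟨h | h, h2⟩
        · exact Or.inl ⟨h, h2⟩
        · exact Or.inr h
    rw [k1, rk_inter_ground, rk_inter_ground]
    exact hC S

theorem HasK4.of_restrict {R : Set α} (h : HasK4 (M ↾ R)) :
    HasK4 M := by
  obtain ⟨C, v, h1, h2, h3, h4, h5⟩ := h.norm
  refine ⟨C, v, fun S => ?_⟩
  have k1 : ∀ X ⊆ R, rk (M ↾ R) X = rk M X := by
    intro X hX
    unfold rk
    rw [Matroid.restrict_eRk_eq _ hX]
  have k2 := h5 S
  rw [k1 _ h1, k1 _ (union_subset h1 (by rintro _ ⟨i, _, rfl⟩; exact h3 i))] at k2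
  exact k2

theorem HasK4.of_comap {f : α → β} {N : Matroid β} (h : HasK4 (N.comap f)) : HasK4 N := by
  obtain ⟨C, v, h5⟩ := h
  refine ⟨f '' C, f ∘ v, fun S => ?_⟩
  have k1 : ∀ X, rk (N.comap f) X = rk N (f '' X) := by
    intro X
    unfold rk
    rw [Matroid.eRk_comap]
  have k2 := h5 S
  rw [k1, k1, image_union, ← image_comp] at k2
  exact k2

/-- Opposite edges of the complete graph on four vertices. -/
def opp : Fin 6 → Fin 6 := ![4, 5, 3, 2, 0, 1]

set_option maxRecDepth 100000 in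
theorem rho_dual : ∀ S : Finset (Fin 6), (S.card : ℤ) + rho Sᶜ - 3 = rho (S.image opp) := by
  decide

theorem opp_opp : ∀ i, opp (opp i) = i := by decide

theorem opp_inj : Function.Injective opp := fun i j h => by
  rw [← opp_opp i, ← opp_opp j, h]

theorem HasK4.of_dual (hM : M.E.Finite) (h : HasK4 M✶) : HasK4 M := by
  classical
  obtain ⟨C, v, h1, h2, h3, h4, h5⟩ := h.norm (M := M✶)
  refine ⟨M.E \ (C ∪ v '' (Finset.univ : Finset (Fin 6))), v ∘ opp, fun S => ?_⟩
  have key : ∀ T : Finset (Fin 6), rk M (M.E \ (C ∪ v '' ((Tᶜ : Finset (Fin 6)) : Set (Fin 6)))) =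
      rk M✶ C - C.ncard + rk M M.E + (rho Tᶜ + T.card - 6) := by
    intro T
    have hsub : C ∪ v '' ((Tᶜ : Finset (Fin 6)) : Set (Fin 6)) ⊆ M.E :=
      union_subset h1 (by rintro _ ⟨i, _, rfl⟩; exact h3 i)
    have k1 := rk_dual hM hsub
    have k2 := h5 Tᶜ
    have k3 : (C ∪ v '' ((Tᶜ : Finset (Fin 6)) : Set (Fin 6))).ncard = C.ncard + (6 - T.card) := by
      rw [Set.ncard_union_eq _ (hM.subset h1) (Set.toFinite _),
        Set.ncard_image_of_injective _ h2, Set.ncard_coe_finset, Finset.card_compl]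
      · simp
      · rw [Set.disjoint_left]
        rintro t ht ⟨i, _, rfl⟩
        exact h4 i ht
    have k4 : T.card ≤ 6 := by
      have := T.card_le_univ
      simpa using this
    omega
  have e1 : M.E \ (C ∪ v '' (Finset.univ : Finset (Fin 6))) ∪ v ∘ opp '' (S : Set (Fin 6)) =
      M.E \ (C ∪ v '' (((S.image opp)ᶜ : Finset (Fin 6)) : Set (Fin 6))) := by
    ext t
    simp only [mem_union, mem_sdiff, mem_image, Finset.coe_univ, mem_univ, true_and, not_or,
      Function.comp, Finset.coe_compl, Finset.coe_image, mem_compl_iff]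
    constructor
    · rintro (⟨k1, k2, k3⟩ | ⟨i, hi, rfl⟩)
      · exact ⟨k1, k2, fun ⟨i, _, hi⟩ => k3 ⟨i, hi⟩⟩
      · refine ⟨h3 _, h4 _, ?_⟩
        rintro ⟨j, hj, hj'⟩
        exact hj ⟨i, hi, (h2 hj').symm⟩
    · rintro ⟨k1, k2, k3⟩
      by_cases k4 : ∃ i, v i = t
      · right
        obtain ⟨i, rfl⟩ := k4
        have : ¬ ¬ ∃ x ∈ (S : Set (Fin 6)), opp x = i := fun h => k3 ⟨i, h, rfl⟩
        obtain ⟨x, hx, hx'⟩ := not_not.1 this
        exact ⟨x, hx, by rw [hx']⟩
      · exact Or.inl ⟨k1, k2, k4⟩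
  have e2 := key (S.image opp)
  have e3 := key ∅
  rw [Finset.compl_empty] at e3
  rw [e1, e2, e3]
  have e4 := rho_dual (S.image opp)
  have e5 : (S.image opp).image opp = S := by
    rw [Finset.image_image]
    have : opp ∘ opp = id := funext opp_opp
    rw [this, Finset.image_id]
  rw [e5] at e4
  rw [rho_univ]
  simp only [Finset.card_empty]
  push_cast
  linarith

theorem HasK4.of_contract (hM : M.E.Finite) {A : Set α} (h : HasK4 (M ／ A)) : HasK4 M := by
  rw [← Matroid.dual_delete_dual] at h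
  have h1 := HasK4.of_dual (M := M✶ ＼ A) (hM.subset (by simp)) h
  rw [Matroid.delete_eq_restrict] at h1
  exact (h1.of_restrict (M := M✶)).of_dual hM

theorem HasK4.of_delete {A : Set α} (h : HasK4 (M ＼ A)) : HasK4 M := by
  rw [Matroid.delete_eq_restrict] at h
  exact h.of_restrict

theorem HasK4.of_minor (hM : M.E.Finite) {N : Matroid α} (hN : N ≤m M) (h : HasK4 N) :
    HasK4 M := by
  obtain ⟨C, D, rfl⟩ := hN
  have h1 := h.of_delete (M := M ／ C)
  exact h1.of_contract hM

theorem rk_iso {M : Matroid α} {N : Matroid β} (hM : M.E.Finite) (hN : N.E.Finite)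
    (e : M.E ≃ N.E)
    (he : ∀ I : Set M.E, M.Indep (Subtype.val '' I) ↔ N.Indep (Subtype.val '' (e '' I)))
    (A : Set M.E) : rk M (Subtype.val '' A) = rk N (Subtype.val '' (e '' A)) := by
  apply le_antisymm
  · exact rk_iso_le hM hN e (fun I => (he I).1) A
  · have h1 := rk_iso_le hN hM e.symm (fun I hI => by
      rw [he, ← image_comp e e.symm]
      simpa using hI) (e '' A)
    rw [← image_comp e.symm e] at h1
    simpa using h1

theorem HasK4.iso {M : Matroid α} {N : Matroid β} (hM : M.E.Finite) (hN : N.E.Finite)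
    (hiso : Iso M N) (h : HasK4 M) : HasK4 N := by
  obtain ⟨e, he⟩ := hiso
  obtain ⟨C, v, h1, h2, h3, h4, h5⟩ := h.norm
  refine ⟨Subtype.val '' (e '' (Subtype.val ⁻¹' C)), fun i => (e ⟨v i, h3 i⟩ : β), fun S => ?_⟩
  have k1 := rk_iso hM hN e he (Subtype.val ⁻¹' C)
  have k2 := rk_iso hM hN e he (Subtype.val ⁻¹' (C ∪ v '' S))
  rw [Subtype.image_preimage_coe, inter_eq_self_of_subset_right h1] at k1
  rw [Subtype.image_preimage_coe, inter_eq_self_of_subset_right
    (union_subset h1 (by rintro _ ⟨i, _, rfl⟩; exact h3 i))] at k2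
  have k3 : (Subtype.val '' (e '' (Subtype.val ⁻¹' (C ∪ v '' S))) : Set β) =
      Subtype.val '' (e '' (Subtype.val ⁻¹' C)) ∪ (fun i => (e ⟨v i, h3 i⟩ : β)) '' S := by
    rw [preimage_union, image_union, image_union]
    congr 1
    ext t
    constructor
    · rintro ⟨_, ⟨⟨x, hx⟩, ⟨i, hi, hi'⟩, rfl⟩, rfl⟩
      refine ⟨i, hi, ?_⟩
      simp only at hi' ⊢
      subst hi'
      rfl
    · rintro ⟨i, hi, rfl⟩
      exact ⟨_, ⟨⟨v i, h3 i⟩, ⟨i, hi, rfl⟩, rfl⟩, rfl⟩
  rw [← k3, ← k1, ← k2]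
  exact h5 S

set_option maxRecDepth 100000 in
theorem rho_conn : ∀ T : Finset (Fin 6), rho T + rho Tᶜ = 3 → T = ∅ ∨ T = Finset.univ := by
  decide

theorem HasK4.of_sum {M : Matroid α} {N : Matroid β} (hM : M.E.Finite) (hN : N.E.Finite)
    (h : HasK4 (M.sum N)) : HasK4 M ∨ HasK4 N := by
  classical
  obtain ⟨C, v, h5⟩ := h
  obtain ⟨T, hT⟩ : ∃ T : Finset (Fin 6), T = Finset.univ.filter (fun i => ∃ a, v i = Sum.inl a) :=
    ⟨_, rfl⟩
  have hTm : ∀ i, i ∈ T ↔ ∃ a, v i = Sum.inl a := by intro i; simp [hT]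
  have hTn : ∀ i, i ∉ T → ∃ b, v i = Sum.inr b := by
    intro i hi
    rcases hvi : v i with a | b
    · exact absurd ((hTm i).2 ⟨a, hvi⟩) hi
    · exact ⟨b, rfl⟩
  have hl : Sum.inl ⁻¹' (C ∪ v '' ((Tᶜ : Finset (Fin 6)) : Set (Fin 6))) = Sum.inl ⁻¹' C := by
    ext a
    simp only [mem_preimage, mem_union, mem_image, Finset.coe_compl, mem_compl_iff,
      Finset.mem_coe]
    constructor
    · rintro (h | ⟨i, hi, hi'⟩)
      · exact h
      · exact absurd ((hTm i).2 ⟨a, hi'⟩) hi
    · exact Or.inl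
  have hr : Sum.inr ⁻¹' (C ∪ v '' (T : Set (Fin 6))) = Sum.inr ⁻¹' C := by
    ext b
    simp only [mem_preimage, mem_union, mem_image, Finset.mem_coe]
    constructor
    · rintro (h | ⟨i, hi, hi'⟩)
      · exact h
      · obtain ⟨a, ha⟩ := (hTm i).1 hi
        rw [ha] at hi'
        cases hi'
    · exact Or.inl
  have hl' : Sum.inl ⁻¹' (C ∪ v '' ((Finset.univ : Finset (Fin 6)) : Set (Fin 6))) =
      Sum.inl ⁻¹' (C ∪ v '' (T : Set (Fin 6))) := by
    ext a
    simp only [mem_preimage, mem_union, mem_image, Finset.coe_univ, mem_univ, true_and,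
      Finset.mem_coe]
    constructor
    · rintro (h | ⟨i, hi'⟩)
      · exact Or.inl h
      · exact Or.inr ⟨i, (hTm i).2 ⟨a, hi'⟩, hi'⟩
    · rintro (h | ⟨i, _, hi'⟩)
      · exact Or.inl h
      · exact Or.inr ⟨i, hi'⟩
  have hr' : Sum.inr ⁻¹' (C ∪ v '' ((Finset.univ : Finset (Fin 6)) : Set (Fin 6))) =
      Sum.inr ⁻¹' (C ∪ v '' ((Tᶜ : Finset (Fin 6)) : Set (Fin 6))) := by
    ext b
    simp only [mem_preimage, mem_union, mem_image, Finset.coe_univ, mem_univ, true_and,
      Finset.coe_compl, mem_compl_iff, Finset.mem_coe]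
    constructor
    · rintro (h | ⟨i, hi'⟩)
      · exact Or.inl h
      · refine Or.inr ⟨i, fun hi => ?_, hi'⟩
        obtain ⟨a, ha⟩ := (hTm i).1 hi
        rw [ha] at hi'
        cases hi'
    · rintro (h | ⟨i, _, hi'⟩)
      · exact Or.inl h
      · exact Or.inr ⟨i, hi'⟩
  have k1 := h5 T
  have k2 := h5 Tᶜ
  have k3 := h5 Finset.univ
  simp only [rk_sum hM hN] at k1 k2 k3
  rw [hl] at k2
  rw [hr] at k1
  rw [hl', hr', rho_univ] at k3
  rcases rho_conn T (by linarith) with h | h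
  · right
    have hv : ∀ i, ∃ b, v i = Sum.inr b := fun i => hTn i (by rw [h]; simp)
    choose w hw using hv
    refine ⟨Sum.inr ⁻¹' C, w, fun S => ?_⟩
    have k4 := h5 S
    simp only [rk_sum hM hN] at k4
    have e1 : Sum.inl ⁻¹' (C ∪ v '' (S : Set (Fin 6))) = Sum.inl ⁻¹' C := by
      ext a
      simp only [mem_preimage, mem_union, mem_image, Finset.mem_coe]
      constructor
      · rintro (h | ⟨i, _, hi'⟩)
        · exact h
        · rw [hw] at hi'
          cases hi'
      · exact Or.inl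
    have e2 : Sum.inr ⁻¹' (C ∪ v '' (S : Set (Fin 6))) = Sum.inr ⁻¹' C ∪ w '' S := by
      ext b
      simp only [mem_preimage, mem_union, mem_image, Finset.mem_coe, hw, Sum.inr.injEq]
    rw [e1, e2] at k4
    linarith
  · left
    have hv : ∀ i, ∃ b, v i = Sum.inl b := fun i => (hTm i).1 (by rw [h]; simp)
    choose w hw using hv
    refine ⟨Sum.inl ⁻¹' C, w, fun S => ?_⟩
    have k4 := h5 S
    simp only [rk_sum hM hN] at k4
    have e1 : Sum.inr ⁻¹' (C ∪ v '' (S : Set (Fin 6))) = Sum.inr ⁻¹' C := by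
      ext a
      simp only [mem_preimage, mem_union, mem_image, Finset.mem_coe]
      constructor
      · rintro (h | ⟨i, _, hi'⟩)
        · exact h
        · rw [hw] at hi'
          cases hi'
      · exact Or.inl
    have e2 : Sum.inl ⁻¹' (C ∪ v '' (S : Set (Fin 6))) = Sum.inl ⁻¹' C ∪ w '' S := by
      ext b
      simp only [mem_preimage, mem_union, mem_image, Finset.mem_coe, hw, Sum.inl.injEq]
    rw [e1, e2] at k4
    linarith

set_option maxRecDepth 100000 in
theorem three_lines : ∃ K1 ∈ lines, ∃ K2 ∈ lines, ∃ K3 ∈ lines,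
    ∃ q, K1 ∩ K2 = {q} ∧ ∃ q1 q2, (K1 ∪ K2) ∩ K3 = {q1, q2} ∧
      q1 ≠ q2 ∧ K1 ∪ K2 ∪ K3 = Finset.univ := by
  decide

theorem rho_le : ∀ S : Finset (Fin 6), rho S ≤ 3 := by decide

theorem HasK4.of_truncation (hM : M.E.Finite) {k : ℕ} {T : Matroid α} (hT : IsTruncation M k T)
    (h : HasK4 T) : HasK4 M := by
  obtain ⟨C, v, h5⟩ := h
  simp only [rk_truncation hM hT] at h5
  refine ⟨C, v, ?_⟩
  have h6 : ∀ S : Finset (Fin 6), rk M (C ∪ v '' S) = rk M C + g M C v S := by
    intro S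
    unfold g
    ring
  have hu := h5 Finset.univ
  rw [h6, rho_univ] at hu
  have hmono : ∀ S, g M C v S ≤ g M C v Finset.univ := fun S =>
    g_mono hM C v (Finset.subset_univ S)
  have hnn : ∀ S, 0 ≤ g M C v S := by
    intro S
    have := g_mono hM C v (Finset.empty_subset S)
    rw [g_empty] at this
    exact this
  rcases le_or_gt (g M C v Finset.univ) 3 with h3 | h3
  · intro S
    have k1 := h5 S
    rw [h6] at k1 ⊢
    have k2 := hmono S
    have k3 := hnn Finset.univ
    have k4 := rho_le S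
    omega
  · exfalso
    obtain ⟨K1, hK1, K2, hK2, K3, hK3, q, e1, q1, q2, e2, e3, e4⟩ := three_lines
    have hline : ∀ K ∈ lines, g M C v K = 2 := by
      intro K hK
      have k1 := h5 K
      rw [h6, rho_line K hK] at k1
      have k2 := hnn K
      omega
    have g1 := hline K1 hK1
    have g2 := hline K2 hK2
    have g3 := hline K3 hK3
    have s1 := g_sub hM C v (S := K1) (T := K2) (U := K1 ∪ K2) (I := {q}) subset_rfl e1.ge
    have s2 := g_sub hM C v (S := K1 ∪ K2) (T := K3) (U := Finset.univ) (I := {q1, q2}) e4.ge e2.ge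
    have s3 := h5 {q}
    have s4 := h5 {q1, q2}
    have h5 : rho {q1, q2} = 2 := by
      unfold rho
      rw [Finset.card_pair e3]
      simp
    rw [h6, h5] at s4
    rw [h6, rho_singleton] at s3
    have k3 := hnn {q}
    have k4 := hnn {q1, q2}
    omega

end Pool.Agent.U356.CM
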