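import Pool.Agent.U356.CM.Closure

/-! The class of matroids without an `M(K₄)`-minor is closed under induction. -/

namespace Pool.Agent.U356.CM

open Set Pool.Agent.Helper442.FE
open scoped Matroid

section pext

variable {α : Type} [Finite α]

/-- Existence of principal extensions. -/
theorem exists_pext (M : Matroid α) {e : α} (he : ∀ Z, rk M (insert e Z) = rk M Z) (F : Set α) :
    ∃ M' : Matroid α, M'.E = univ ∧ (∀ Z, e ∉ Z → rk M' Z = rk M Z) ∧
      ∀ Z, rk M' (insert e Z) = min (rk M Z + 1) (rk M (Z ∪ F)) := by
  classical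
  obtain ⟨M', hM'⟩ := exists_induced (fun u v => u = e ∧ v ∈ F) M univ
  have hrk : ∀ B, rk M' B = mc (fun u v => u = e ∧ v ∈ F) M B := fun B =>
    rk_induced hM' (subset_univ B)
  have hlow : ∀ B x y : Set α, rk M (B ∪ x ∪ y) ≤ (B \ x).ncard + (x \ y).ncard + rk M y := by
    intro B x y
    have h1 := rk_union_le' M y (x \ y)
    have h2 := rk_union_le' M (y ∪ x \ y) (B \ x)
    have h3 : rk M (B ∪ x ∪ y) ≤ rk M (y ∪ x \ y ∪ B \ x) := rk_mono' M (by
      intro t
      simp only [mem_union, mem_sdiff]
      tauto)
    linarith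
  refine ⟨M', hM'.1, fun Z hZ => ?_, fun Z => ?_⟩
  · rw [hrk]
    apply le_antisymm
    · have hv : Valid (fun u v => u = e ∧ v ∈ F) Z Z := by
        rintro u v ⟨rfl, _⟩ hu
        exact absurd hu hZ
      have := mc_le (M₀ := M) (B := Z) hv
      unfold cutv at this
      simpa using this
    · obtain ⟨x, y, hv, hxy⟩ := exists_mc (fun u v => u = e ∧ v ∈ F) M Z
      rw [hxy]
      have h1 := hlow Z x y
      have h2 : rk M Z ≤ rk M (Z ∪ x ∪ y) := rk_mono' M (fun t ht => Or.inl (Or.inl ht))
      unfold cutv
      linarith
  · rw [hrk]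
    apply le_antisymm
    · apply le_min
      · by_cases hZ : e ∈ Z
        · have hv : Valid (fun u v => u = e ∧ v ∈ F) (Z \ {e}) (Z \ {e}) := by
            rintro u v ⟨rfl, _⟩ hu
            exact absurd rfl hu.2
          have h1 := mc_le (M₀ := M) (B := insert e Z) hv
          unfold cutv at h1
          have h2 : (insert e Z \ (Z \ {e})).ncard ≤ 1 := by
            have : insert e Z \ (Z \ {e}) ⊆ {e} := by
              intro t
              simp only [mem_sdiff, mem_insert_iff, mem_singleton_iff]
              tauto
            have := Set.ncard_le_ncard this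
            simpa using this
          have h3 : rk M (Z \ {e}) ≤ rk M Z := rk_mono' M sdiff_subset
          simp only [sdiff_self, ncard_empty, Nat.cast_zero, add_zero] at h1
          omega
        · have hv : Valid (fun u v => u = e ∧ v ∈ F) Z Z := by
            rintro u v ⟨rfl, _⟩ hu
            exact absurd hu hZ
          have h1 := mc_le (M₀ := M) (B := insert e Z) hv
          unfold cutv at h1
          have h2 : (insert e Z \ Z).ncard ≤ 1 := by
            have : insert e Z \ Z ⊆ {e} := by
              intro t
              simp only [mem_sdiff, mem_insert_iff, mem_singleton_iff]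
              tauto
            have := Set.ncard_le_ncard this
            simpa using this
          simp only [sdiff_self, ncard_empty, Nat.cast_zero, add_zero] at h1
          omega
      · have hv : Valid (fun u v => u = e ∧ v ∈ F) (insert e (Z ∪ F)) (insert e (Z ∪ F)) := by
          rintro u v ⟨rfl, hv⟩ _
          exact Or.inr (Or.inr hv)
        have h1 := mc_le (M₀ := M) (B := insert e Z) hv
        unfold cutv at h1
        have h2 : (insert e Z \ insert e (Z ∪ F)) = ∅ := by
          ext t
          simp only [mem_sdiff, mem_insert_iff, mem_union, mem_empty_iff_false]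
          tauto
        rw [he] at h1
        simp only [h2, sdiff_self, ncard_empty, Nat.cast_zero, add_zero,
          zero_add] at h1
        exact h1
    · obtain ⟨x, y, hv, hxy⟩ := exists_mc (fun u v => u = e ∧ v ∈ F) M (insert e Z)
      rw [hxy]
      by_cases hy : e ∈ y
      · apply min_le_of_right_le
        have hF : F ⊆ x := fun f hf => hv e f ⟨rfl, hf⟩ hy
        have h1 := hlow (insert e Z) x y
        have h2 : rk M (Z ∪ F) ≤ rk M (insert e Z ∪ x ∪ y) := rk_mono' M (by
          rintro t (ht | ht)
          · exact Or.inl (Or.inl (Or.inr ht))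
          · exact Or.inl (Or.inr (hF ht)))
        unfold cutv
        linarith
      · apply min_le_of_left_le
        have h1 := hlow (insert e Z \ {e}) (x \ {e}) y
        have h2 : rk M Z ≤ rk M (insert e Z \ {e} ∪ (x \ {e}) ∪ y) := by
          rw [← he (insert e Z \ {e} ∪ (x \ {e}) ∪ y)]
          apply rk_mono' M
          intro t ht
          by_cases h : t = e
          · exact Or.inl h
          · exact Or.inr (Or.inl (Or.inl ⟨Or.inr ht, h⟩))
        have h3 : ((insert e Z \ {e}) \ (x \ {e})).ncard + ((x \ {e}) \ y).ncard + 1 ≤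
            (insert e Z \ x).ncard + (x \ y).ncard := by
          by_cases hx : e ∈ x
          · have k1 : ((insert e Z \ {e}) \ (x \ {e})) ⊆ (insert e Z \ x) := by
              intro t
              simp only [mem_sdiff, mem_insert_iff, mem_singleton_iff]
              tauto
            have k2 : insert e ((x \ {e}) \ y) ⊆ x \ y := by
              rintro t (rfl | ht)
              · exact ⟨hx, hy⟩
              · exact ⟨ht.1.1, ht.2⟩
            have k3 := Set.ncard_le_ncard k1
            have k4 := Set.ncard_le_ncard k2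
            rw [Set.ncard_insert_of_notMem (by simp)] at k4
            omega
          · have k1 : insert e ((insert e Z \ {e}) \ (x \ {e})) ⊆ (insert e Z \ x) := by
              intro t
              simp only [mem_sdiff, mem_insert_iff, mem_singleton_iff]
              rintro (rfl | h)
              · exact ⟨Or.inl rfl, hx⟩
              · tauto
            have k2 : (x \ {e}) \ y ⊆ x \ y := by
              rintro t ht
              exact ⟨ht.1.1, ht.2⟩
            have k3 := Set.ncard_le_ncard k1
            have k4 := Set.ncard_le_ncard k2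
            rw [Set.ncard_insert_of_notMem (by simp)] at k3
            omega
        unfold cutv
        omega

end pext


section bip

variable {τ : Type} [Finite τ]

theorem indep_iff_rk' {α : Type} [Finite α] {M : Matroid α} {W : Set α} :
    M.Indep W ↔ (W.ncard : ℤ) ≤ rk M W :=
  ⟨fun h => (rk_indep' M h).ge, indep_of_rk' M⟩

theorem exists_J (Δ : τ → τ → Prop) (M : Matroid τ) (hM : ¬ HasK4 M) (s : Finset τ) :
    ∃ J : Matroid (τ ⊕ τ), ¬ HasK4 J ∧
      (∀ t ∉ s, ∀ Z, rk J (insert (Sum.inl t) Z) = rk J Z) ∧
      ∀ X Y : Set τ, X ⊆ (s : Set τ) → (J.Indep (Sum.inl '' X ∪ Sum.inr '' Y) ↔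
        ∃ f : τ → τ, InjOn f X ∧ (∀ x ∈ X, Δ x (f x)) ∧ (∀ x ∈ X, f x ∉ Y) ∧
          M.Indep (f '' X ∪ Y)) := by
  classical
  induction s using Finset.induction_on with
  | empty =>
    have hlz : ∀ X : Set τ, rk (Matroid.loopyOn (univ : Set τ)) X = 0 := by
      intro X
      unfold rk
      simp
    refine ⟨(Matroid.loopyOn univ).sum M, fun h => ?_, ?_, ?_⟩
    · rcases h.of_sum (Set.toFinite _) (Set.toFinite _) with h1 | h1
      · obtain ⟨C, v, h2⟩ := h1
        have := h2 {0}
        rw [hlz, hlz, rho_singleton] at this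
        omega
      · exact hM h1
    · intro t _ Z
      rw [rk_sum (Set.toFinite _) (Set.toFinite _), rk_sum (Set.toFinite _) (Set.toFinite _),
        hlz, hlz]
      have : Sum.inr ⁻¹' (insert (Sum.inl t) Z) = Sum.inr ⁻¹' Z := by
        ext x
        simp
      rw [this]
    · intro X Y hX
      have hX0 : X = ∅ := by
        rw [Finset.coe_empty] at hX
        exact subset_empty_iff.1 hX
      subst hX0
      rw [Matroid.sum_indep_iff]
      have e1 : Sum.inl ⁻¹' (Sum.inl '' (∅ : Set τ) ∪ Sum.inr '' Y : Set (τ ⊕ τ)) = ∅ := by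
        ext x
        simp
      have e2 : Sum.inr ⁻¹' (Sum.inl '' (∅ : Set τ) ∪ Sum.inr '' Y : Set (τ ⊕ τ)) = Y := by
        ext x
        simp
      rw [e1, e2]
      constructor
      · rintro ⟨_, h⟩
        exact ⟨id, by simp, by simp, by simp, by simpa using h⟩
      · rintro ⟨f, _, _, _, h⟩
        exact ⟨by simp, by simpa using h⟩
  | insert t s hts ih =>
    obtain ⟨J, hJ1, hJ2, hJ3⟩ := ih
    obtain ⟨J', -, h1, h2⟩ := exists_pext J (e := Sum.inl t) (hJ2 t hts)
      (Sum.inr '' {u | Δ t u})
    refine ⟨J', fun h => hJ1 (hasK4_of_pext (Set.toFinite _) h1 h2 h), ?_, ?_⟩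
    · intro t' ht' Z
      rw [Finset.mem_insert, not_or] at ht'
      by_cases hZ : Sum.inl t ∈ Z
      · have e1 : insert (Sum.inl t') Z = insert (Sum.inl t) (insert (Sum.inl t') Z) :=
          (insert_eq_of_mem (show Sum.inl t ∈ insert (Sum.inl t') Z from Or.inr hZ)).symm
        have e2 : rk J' Z = min (rk J Z + 1) (rk J (Z ∪ Sum.inr '' {u | Δ t u})) := by
          rw [← h2, insert_eq_of_mem hZ]
        rw [e1, h2, e2, hJ2 t' ht'.2, insert_union, hJ2 t' ht'.2]
      · rw [h1 Z hZ, h1, hJ2 t' ht'.2]
        rintro (h | h)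
        · exact ht'.1 (Sum.inl_injective h).symm
        · exact hZ h
    · intro X Y hX
      by_cases htX : t ∈ X
      · obtain ⟨X0, hX0⟩ : ∃ X0, X0 = X \ {t} := ⟨_, rfl⟩
        have htX0 : t ∉ X0 := by simp [hX0]
        have hXX0 : X = insert t X0 := by
          rw [hX0, insert_sdiff_singleton, insert_eq_of_mem htX]
        have hX0s : X0 ⊆ (s : Set τ) := by
          intro x hx
          have h3 := hX (hXX0 ▸ mem_insert_of_mem _ hx : x ∈ X)
          rw [Finset.coe_insert] at h3
          rcases h3 with h3 | h3
          · subst h3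
            exact absurd hx htX0
          · exact h3
        obtain ⟨W0, hW0⟩ : ∃ W0 : Set (τ ⊕ τ), W0 = Sum.inl '' X0 ∪ Sum.inr '' Y := ⟨_, rfl⟩
        have hW : Sum.inl '' X ∪ Sum.inr '' Y = insert (Sum.inl t) W0 := by
          rw [hW0, hXX0, image_insert_eq, insert_union]
        have htW : Sum.inl t ∉ W0 := by
          rw [hW0]
          rintro (⟨x, hx, hx'⟩ | ⟨x, _, hx'⟩)
          · exact htX0 (Sum.inl_injective hx' ▸ hx)
          · cases hx'
        have hins : ∀ u, insert (Sum.inr u) W0 = Sum.inl '' X0 ∪ Sum.inr '' (insert u Y) := by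
          intro u
          rw [hW0, image_insert_eq, union_insert]
        rw [hW, indep_iff_rk', h2, Set.ncard_insert_of_notMem htW, hXX0]
        constructor
        · intro h3
          push_cast at h3
          have h4 : J.Indep W0 := indep_iff_rk'.2 (by omega)
          have h5 := rk_indep' J h4
          obtain ⟨d, ⟨u, hu, rfl⟩, hd⟩ := exists_rk_insert (M := J) (Set.toFinite _) (C := W0)
            (F := Sum.inr '' {u | Δ t u}) (by omega)
          have hdW : Sum.inr u ∉ W0 := by
            intro h
            rw [insert_eq_of_mem h] at hd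
            omega
          have h6 : J.Indep (insert (Sum.inr u) W0) := by
            rw [indep_iff_rk', Set.ncard_insert_of_notMem hdW]
            push_cast
            omega
          rw [hins, hJ3 X0 _ hX0s] at h6
          obtain ⟨f, f1, f2, f3, f4⟩ := h6
          have huY : u ∉ Y := fun h => hdW (by rw [hW0]; exact Or.inr ⟨u, h, rfl⟩)
          have hne : ∀ x ∈ X0, x ≠ t := fun x hx h => htX0 (h ▸ hx)
          have himg : Function.update f t u '' X0 = f '' X0 := by
            apply image_congr
            intro x hx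
            simp [Function.update_of_ne (hne x hx)]
          refine ⟨Function.update f t u, ?_, ?_, ?_, ?_⟩
          · rw [injOn_insert htX0]
            refine ⟨?_, ?_⟩
            · intro x hx y hy hxy
              simp only [Function.update_of_ne (hne x hx), Function.update_of_ne (hne y hy)] at hxy
              exact f1 hx hy hxy
            · rw [himg, Function.update_self]
              rintro ⟨x, hx, hxu⟩
              exact f3 x hx (Or.inl hxu)
          · rintro x (rfl | hx)
            · rw [Function.update_self]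
              exact hu
            · rw [Function.update_of_ne (hne x hx)]
              exact f2 x hx
          · rintro x (rfl | hx)
            · rw [Function.update_self]
              exact huY
            · rw [Function.update_of_ne (hne x hx)]
              exact fun h => f3 x hx (Or.inr h)
          · rw [image_insert_eq, himg, Function.update_self, insert_union]
            rwa [union_insert] at f4
        · rintro ⟨f, f1, f2, f3, f4⟩
          have hfx : ∀ x ∈ X0, f x ≠ f t := by
            intro x hx h
            have := f1 (mem_insert_of_mem _ hx) (mem_insert _ _) h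
            exact htX0 (this ▸ hx)
          have h6 : J.Indep (insert (Sum.inr (f t)) W0) := by
            rw [hins, hJ3 X0 _ hX0s]
            refine ⟨f, f1.mono (subset_insert _ _), fun x hx => f2 x (Or.inr hx), ?_, ?_⟩
            · rintro x hx (h | h)
              · exact hfx x hx h
              · exact f3 x (Or.inr hx) h
            · rwa [union_insert, ← insert_union, ← image_insert_eq]
          have hnot : Sum.inr (f t) ∉ W0 := by
            rw [hW0]
            rintro (⟨x, _, hx'⟩ | ⟨x, hx, hx'⟩)
            · cases hx'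
            · exact f3 t (Or.inl rfl) (Sum.inr_injective hx' ▸ hx)
          have h7 := rk_indep' J h6
          rw [Set.ncard_insert_of_notMem hnot] at h7
          have h8 : J.Indep W0 := h6.subset (subset_insert _ _)
          have h9 := rk_indep' J h8
          have h10 : rk J (insert (Sum.inr (f t)) W0) ≤ rk J (W0 ∪ Sum.inr '' {u | Δ t u}) :=
            rk_mono' J (insert_subset (Or.inr ⟨f t, f2 t (Or.inl rfl), rfl⟩) subset_union_left)
          push_cast at h7 ⊢
          omega
      · have hXs : X ⊆ (s : Set τ) := by
          intro x hx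
          have h3 := hX hx
          rw [Finset.coe_insert] at h3
          rcases h3 with h3 | h3
          · subst h3
            exact absurd hx htX
          · exact h3
        rw [← hJ3 X Y hXs, indep_iff_rk', indep_iff_rk', h1]
        rintro (⟨x, hx, hx'⟩ | ⟨x, _, hx'⟩)
        · exact htX (Sum.inl_injective hx' ▸ hx)
        · cases hx'

/-- The class of matroids without an `M(K₄)`-minor is closed under induction. -/
theorem HasK4.of_induced {G : τ → τ → Prop} {M₀ N : Matroid τ} {A : Set τ}
    (hN : IsInduced G M₀ A N) (h : HasK4 N) : HasK4 M₀ := by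
  classical
  have : Fintype τ := Fintype.ofFinite τ
  by_contra hM0
  have h1 : ¬ HasK4 (M₀ ↾ univ)✶ := fun h => hM0 (HasK4.of_restrict (h.of_dual (Set.toFinite _)))
  obtain ⟨J, hJ1, -, hJ3⟩ := exists_J (fun t u => u = t ∨ G u t) (M₀ ↾ univ)✶ h1 Finset.univ
  obtain ⟨K, hK⟩ : ∃ K : Matroid τ, K = (J.comap Sum.inl) ↾ univ := ⟨_, rfl⟩
  have hK4 : ¬ HasK4 K := fun h => hJ1 (HasK4.of_comap (HasK4.of_restrict (hK ▸ h)))
  have hKE : K.E = univ := by rw [hK]; rfl
  have hKI : ∀ X, K.Indep X ↔ ∃ f : τ → τ, InjOn f X ∧ (∀ x ∈ X, f x = x ∨ G (f x) x) ∧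
      (M₀ ↾ univ)✶.Indep (f '' X) := by
    intro X
    have h2 := hJ3 X ∅ (by simp)
    rw [image_empty, union_empty] at h2
    rw [hK, Matroid.restrict_indep_iff, Matroid.comap_indep_iff, h2]
    simp only [Sum.inl_injective.injOn, and_true, subset_univ, mem_empty_iff_false,
      not_false_eq_true, implies_true, true_and, union_empty]
  have hL : ∀ X, K✶.Indep X ↔ Lk G M₀ X := by
    intro X
    rw [Matroid.dual_indep_iff_exists (by rw [hKE]; exact subset_univ _)]
    constructor
    · rintro ⟨B, hB, hXB⟩
      obtain ⟨f, f1, f2, f3⟩ := (hKI B).1 hB.indep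
      obtain ⟨B1, hB1⟩ := (M₀ ↾ univ)✶.exists_isBase
      have h2 : K.Indep B1 := (hKI B1).2 ⟨id, injOn_id _, fun _ _ => Or.inl rfl, by
        rw [image_id]; exact hB1.indep⟩
      obtain ⟨B2, hB2, hB12⟩ := h2.exists_isBase_superset
      have h3 : B1.ncard ≤ B.ncard := by
        have := Set.ncard_le_ncard hB12 (Set.toFinite _)
        rw [← hB.ncard_eq_ncard_of_isBase hB2] at this
        exact this
      have h4 : (M₀ ↾ univ)✶.IsBase (f '' B) := by
        obtain ⟨B3, hB3, hfB⟩ := f3.exists_isBase_superset
        have h5 : B3.ncard = B1.ncard := hB3.ncard_eq_ncard_of_isBase hB1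
        have h6 : (f '' B).ncard = B.ncard := f1.ncard_image
        have h7 : f '' B = B3 := Set.eq_of_subset_of_ncard_le hfB (by omega) (Set.toFinite _)
        rw [h7]
        exact hB3
      have h5 : M₀.Indep (f '' B)ᶜ := by
        have := h4.compl_isBase_of_dual
        rw [Matroid.restrict_ground_eq, ← compl_eq_univ_sdiff] at this
        exact (Matroid.restrict_indep_iff.1 this.indep).1
      obtain ⟨P, p1, p2, p3, p4, -⟩ := linked_of_map (G := G) _ f Bᶜ rfl
        (by rwa [compl_compl]) (by
          intro t ht
          exact f2 t (not_not.1 ht))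
      have h6 : Lk G M₀ Bᶜ := ⟨(f '' B)ᶜ, h5, P, p1, p2, p3, by rw [p4, compl_compl]⟩
      exact h6.subset (fun x hx hxB => Set.disjoint_left.1 hXB hx hxB)
    · rintro ⟨Y, hY, hXY⟩
      obtain ⟨⟨m, m1, m2, m3⟩, j, j1, j2⟩ := map_of_linked hXY
      have c1 : X.ncard ≤ Y.ncard := Set.ncard_le_ncard_of_injOn j j2 j1
      have c2 : (m '' Xᶜ).ncard = Xᶜ.ncard := m1.ncard_image
      have c3 : X.ncard + Xᶜ.ncard = Nat.card τ := Set.ncard_add_ncard_compl _
      have c4 : Y.ncard + Yᶜ.ncard = Nat.card τ := Set.ncard_add_ncard_compl _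
      have hmY : m '' Xᶜ = Yᶜ := by
        apply Set.eq_of_subset_of_ncard_le
        · rintro _ ⟨t, ht, rfl⟩
          exact m3 t ht
        · omega
        · exact Set.toFinite _
      have hY' : (M₀ ↾ univ).Indep Y := Matroid.restrict_indep_iff.2 ⟨hY, subset_univ _⟩
      obtain ⟨Y', hY1, hYY⟩ := hY'.exists_isBase_superset
      have hD : (M₀ ↾ univ)✶.IsBase Y'ᶜ := by
        have := hY1.compl_isBase_dual
        rwa [Matroid.restrict_ground_eq, ← compl_eq_univ_sdiff] at this
      obtain ⟨B, hB⟩ : ∃ B : Set τ, B = {t | t ∉ X ∧ m t ∉ Y'} := ⟨_, rfl⟩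
      have hBX : B ⊆ Xᶜ := by rw [hB]; exact fun t ht => ht.1
      have hmB : m '' B = Y'ᶜ := by
        ext u
        constructor
        · rintro ⟨t, ht, rfl⟩
          rw [hB] at ht
          exact ht.2
        · intro hu
          have : u ∈ Yᶜ := fun h => hu (hYY h)
          rw [← hmY] at this
          obtain ⟨t, ht, rfl⟩ := this
          exact ⟨t, by rw [hB]; exact ⟨ht, hu⟩, rfl⟩
      have hBi : K.Indep B := (hKI B).2 ⟨m, m1.mono hBX, fun x hx => m2 x (hBX hx), by
        rw [hmB]; exact hD.indep⟩
      have hcB : B.ncard = Y'ᶜ.ncard := by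
        rw [← hmB, (m1.mono hBX).ncard_image]
      refine ⟨B, ?_, Set.disjoint_left.2 fun x hx hxB => hBX hxB hx⟩
      obtain ⟨B2, hB2, hBB2⟩ := hBi.exists_isBase_superset
      obtain ⟨f, f1, -, f3⟩ := (hKI B2).1 hB2.indep
      obtain ⟨B3, hB3, hfB⟩ := f3.exists_isBase_superset
      have d1 : B3.ncard = Y'ᶜ.ncard := hB3.ncard_eq_ncard_of_isBase hD
      have d2 : (f '' B2).ncard = B2.ncard := f1.ncard_image
      have d3 := Set.ncard_le_ncard hfB (Set.toFinite _)
      have d4 : B = B2 := Set.eq_of_subset_of_ncard_le hBB2 (by omega) (Set.toFinite _)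
      rw [d4]
      exact hB2
  have hNeq : N = K✶ ↾ A := by
    refine Matroid.ext_indep hN.1 ?_
    intro X hX
    rw [hN.1] at hX
    rw [hN.2, Matroid.restrict_indep_iff, hL]
    unfold Lk
    tauto
  rw [hNeq] at h
  exact hK4 (HasK4.of_dual (Set.toFinite _) (HasK4.of_restrict h))

end bip

end Pool.Agent.U356.CM
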