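import Pool.Agent.U356.CM.Induce

/-! The cycle matroid of the complete graph on four vertices. -/

namespace Pool.Agent.U356.CM

open Set Pool.Agent.Helper442.FE
open scoped Matroid

theorem reachable_iff {V : Type} (G : SimpleGraph V) (u v : V) :
    G.Reachable u v ↔ ∀ c : V → Bool, (∀ a b, G.Adj a b → c a = c b) → c u = c v := by
  classical
  constructor
  · rintro ⟨w⟩ c hc
    induction w with
    | nil => rfl
    | cons h _ ih => exact (hc _ _ h).trans ih
  · intro h
    have h1 := h (fun x => decide (G.Reachable u x)) (by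
      intro a b hab
      have : G.Reachable u a ↔ G.Reachable u b :=
        ⟨fun h => h.trans hab.reachable, fun h => h.trans hab.symm.reachable⟩
      simp [this])
    simpa using h1

/-- End points of the edges `02, 01, 03, 12, 13, 23`. -/
def e1 : Fin 6 → Fin 4 := ![0, 0, 0, 1, 1, 2]

/-- End points of the edges `02, 01, 03, 12, 13, 23`. -/
def e2 : Fin 6 → Fin 4 := ![2, 1, 3, 2, 3, 3]

/-- The edges of the complete graph on four vertices. -/
def edge (i : Fin 6) : Sym2 (Fin 4) := s(e1 i, e2 i)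

theorem edge_inj : Function.Injective edge := by decide

theorem e1_ne_e2 : ∀ i, e1 i ≠ e2 i := by decide

theorem range_edge : range edge = (⊤ : SimpleGraph (Fin 4)).edgeSet := by
  ext x
  constructor
  · rintro ⟨i, rfl⟩
    simp [edge, e1_ne_e2]
  · induction x with
    | h a b =>
      intro hab
      have hab' : a ≠ b := by simpa using hab
      have : ∀ a b : Fin 4, a ≠ b → ∃ i, edge i = s(a, b) := by decide
      exact this a b hab'

/-- Decidable form of acyclicity: every edge crosses a cut that no other edge crosses. -/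
def Ac (S : Finset (Fin 6)) : Prop :=
  ∀ i ∈ S, ∃ c : Fin 4 → Bool, (∀ j ∈ S, j ≠ i → c (e1 j) = c (e2 j)) ∧ c (e1 i) ≠ c (e2 i)

instance (S : Finset (Fin 6)) : Decidable (Ac S) := by unfold Ac; infer_instance

theorem ac_iff : ∀ S : Finset (Fin 6), Ac S ↔ (S.card : ℤ) ≤ rho S := by
  decide +kernel

theorem acyclic_iff (S : Finset (Fin 6)) :
    (SimpleGraph.fromEdgeSet (edge '' (S : Set (Fin 6)))).IsAcyclic ↔ Ac S := by
  rw [SimpleGraph.isAcyclic_iff_forall_adj_isBridge]
  constructor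
  · intro h i hi
    have h1 : (SimpleGraph.fromEdgeSet (edge '' (S : Set (Fin 6)))).Adj (e1 i) (e2 i) := by
      rw [SimpleGraph.fromEdgeSet_adj]
      exact ⟨⟨i, hi, rfl⟩, e1_ne_e2 i⟩
    have h2 := h h1
    rw [SimpleGraph.isBridge_iff] at h2
    rw [reachable_iff] at h2
    push Not at h2
    obtain ⟨c, hc1, hc2⟩ := h2
    refine ⟨c, ?_, hc2⟩
    intro j hj hji
    apply hc1
    rw [SimpleGraph.deleteEdges_adj, SimpleGraph.fromEdgeSet_adj]
    refine ⟨⟨⟨j, hj, rfl⟩, e1_ne_e2 j⟩, ?_⟩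
    intro h4
    exact hji (edge_inj h4)
  · intro h u v huv
    rw [SimpleGraph.isBridge_iff]
    rw [SimpleGraph.fromEdgeSet_adj] at huv
    obtain ⟨⟨i, hi, hiuv⟩, hne⟩ := huv
    obtain ⟨c, hc1, hc2⟩ := h i hi
    rw [reachable_iff]
    push Not
    have hcuv : c u ≠ c v := by
      unfold edge at hiuv
      rw [Sym2.eq_iff] at hiuv
      rcases hiuv with ⟨h1, h2⟩ | ⟨h1, h2⟩
      · rw [← h1, ← h2]
        exact hc2
      · rw [← h1, ← h2]
        exact hc2.symm
    refine ⟨c, ?_, hcuv⟩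
    intro a b hab
    rw [SimpleGraph.deleteEdges_adj, SimpleGraph.fromEdgeSet_adj] at hab
    obtain ⟨⟨⟨j, hj, hjab⟩, hab1⟩, hab2⟩ := hab
    have hji : j ≠ i := by
      rintro rfl
      exact hab2 (by rw [← hjab, hiuv]; rfl)
    have h1 := hc1 j hj hji
    unfold edge at hjab
    rw [Sym2.eq_iff] at hjab
    rcases hjab with ⟨h2, h3⟩ | ⟨h2, h3⟩
    · rw [← h2, ← h3]
      exact h1
    · rw [← h2, ← h3]
      exact h1.symm

theorem exists_eq_image {I : Set (Sym2 (Fin 4))} (hI : I ⊆ (⊤ : SimpleGraph (Fin 4)).edgeSet) :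
    ∃ S : Finset (Fin 6), I = edge '' (S : Set (Fin 6)) := by
  classical
  refine ⟨Finset.univ.filter (fun i => edge i ∈ I), ?_⟩
  ext x
  constructor
  · intro hx
    have h1 := hI hx
    rw [← range_edge] at h1
    obtain ⟨i, rfl⟩ := h1
    exact ⟨i, by simpa using hx, rfl⟩
  · rintro ⟨i, hi, rfl⟩
    simpa using hi

theorem rho_aug : ∀ S T : Finset (Fin 6), (S.card : ℤ) ≤ rho S → (T.card : ℤ) ≤ rho T →
    S.card < T.card → ∃ i ∈ T, i ∉ S ∧ ((insert i S).card : ℤ) ≤ rho (insert i S) := by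
  decide +kernel

theorem rho_sub : ∀ S T : Finset (Fin 6), (T.card : ℤ) ≤ rho T → S ⊆ T →
    (S.card : ℤ) ≤ rho S := by
  decide +kernel

/-- The cycle matroid of the complete graph on four vertices: the ground set is the set of edges of
the graph, a set of edges is independent if it is (the edge set of) an acyclic graph. -/
def MK4 : Matroid (Sym2 (Fin 4)) :=
  (IndepMatroid.ofFinite (E := (⊤ : SimpleGraph (Fin 4)).edgeSet) (Set.toFinite _)
    (fun I => I ⊆ (⊤ : SimpleGraph (Fin 4)).edgeSet ∧ (SimpleGraph.fromEdgeSet I).IsAcyclic)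
    ⟨empty_subset _, by
      simp⟩
    (by
      rintro I J ⟨hJ1, hJ2⟩ hIJ
      refine ⟨hIJ.trans hJ1, ?_⟩
      obtain ⟨T, rfl⟩ := exists_eq_image hJ1
      obtain ⟨S, rfl⟩ := exists_eq_image (hIJ.trans hJ1)
      rw [acyclic_iff, ac_iff] at *
      exact rho_sub S T hJ2 (by simpa using (image_subset_image_iff edge_inj).1 hIJ))
    (by
      rintro I J ⟨hI1, hI2⟩ ⟨hJ1, hJ2⟩ hlt
      obtain ⟨T, rfl⟩ := exists_eq_image hJ1
      obtain ⟨S, rfl⟩ := exists_eq_image hI1
      rw [acyclic_iff, ac_iff] at hI2 hJ2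
      rw [Set.ncard_image_of_injective _ edge_inj, Set.ncard_image_of_injective _ edge_inj,
        Set.ncard_coe_finset, Set.ncard_coe_finset] at hlt
      obtain ⟨i, hi1, hi2, hi3⟩ := rho_aug S T hI2 hJ2 hlt
      refine ⟨edge i, ⟨i, hi1, rfl⟩, ?_, insert_subset (hJ1 ⟨i, hi1, rfl⟩) hI1, ?_⟩
      · rintro ⟨j, hj, hj'⟩
        exact hi2 (edge_inj hj' ▸ hj)
      · rw [← image_insert_eq, ← Finset.coe_insert, acyclic_iff, ac_iff]
        exact hi3)
    (fun _ h => h.1)).matroid

theorem MK4_ground : MK4.E = (⊤ : SimpleGraph (Fin 4)).edgeSet := rfl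

theorem MK4_indep (I : Set (Sym2 (Fin 4))) : MK4.Indep I ↔
    I ⊆ (⊤ : SimpleGraph (Fin 4)).edgeSet ∧ (SimpleGraph.fromEdgeSet I).IsAcyclic := Iff.rfl

theorem MK4_indep_image (S : Finset (Fin 6)) :
    MK4.Indep (edge '' (S : Set (Fin 6))) ↔ (S.card : ℤ) ≤ rho S := by
  rw [MK4_indep, acyclic_iff, ac_iff]
  refine ⟨fun h => h.2, fun h => ⟨?_, h⟩⟩
  rw [← range_edge]
  exact image_subset_range _ _

theorem rho_max : ∀ S : Finset (Fin 6), (∃ T ⊆ S, (T.card : ℤ) = rho S ∧ (T.card : ℤ) ≤ rho T) ∧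
    ∀ T ⊆ S, (T.card : ℤ) ≤ rho T → (T.card : ℤ) ≤ rho S := by
  decide +kernel

theorem MK4_rk (S : Finset (Fin 6)) : rk MK4 (edge '' (S : Set (Fin 6))) = rho S := by
  obtain ⟨⟨T, hT1, hT2, hT3⟩, h2⟩ := rho_max S
  apply le_antisymm
  · obtain ⟨I, hI⟩ := MK4.exists_isBasis' (edge '' (S : Set (Fin 6)))
    obtain ⟨T, rfl⟩ := exists_eq_image (I := I) hI.indep.subset_ground
    have h3 := (MK4_indep_image T).1 hI.indep
    have h4 : T ⊆ S := by
      have := (image_subset_image_iff edge_inj).1 hI.subset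
      exact_mod_cast this
    have h5 : rk MK4 (edge '' (S : Set (Fin 6))) = T.card := by
      have : rk MK4 (edge '' (S : Set (Fin 6))) = rk MK4 (edge '' (T : Set (Fin 6))) := by
        unfold rk
        rw [hI.eRk_eq_eRk]
      rw [this, rk_indep' MK4 hI.indep, Set.ncard_image_of_injective _ edge_inj,
        Set.ncard_coe_finset]
    rw [h5]
    exact h2 T h4 h3
  · have h3 := rk_indep' MK4 ((MK4_indep_image T).2 hT3)
    rw [Set.ncard_image_of_injective _ edge_inj, Set.ncard_coe_finset] at h3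
    rw [← hT2, ← h3]
    exact rk_mono' MK4 (image_mono (by exact_mod_cast hT1))

theorem hasK4_MK4 : HasK4 MK4 := by
  refine ⟨∅, edge, fun S => ?_⟩
  rw [empty_union, MK4_rk, rk_empty, zero_add]

theorem iso_of_range {α β : Type} {N : Matroid α} {K : Matroid β} {v : Fin 6 → α} {w : Fin 6 → β}
    (hv : Function.Injective v) (hw : Function.Injective w) (hN : N.E = range v)
    (hK : K.E = range w) (h : ∀ S : Set (Fin 6), N.Indep (v '' S) ↔ K.Indep (w '' S)) :
    Iso N K := by
  refine ⟨(Equiv.setCongr hN).trans ((Equiv.ofInjective v hv).symm.trans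
    ((Equiv.ofInjective w hw).trans (Equiv.setCongr hK.symm))), fun I => ?_⟩
  have hmem : ∀ i, v i ∈ N.E := fun i => hN ▸ ⟨i, rfl⟩
  obtain ⟨S, hS⟩ : ∃ S : Set (Fin 6), S = {i | (⟨v i, hmem i⟩ : N.E) ∈ I} := ⟨_, rfl⟩
  have k1 : (Subtype.val '' I : Set α) = v '' S := by
    ext x
    constructor
    · rintro ⟨⟨y, hy⟩, hy', rfl⟩
      have : y ∈ range v := hN ▸ hy
      obtain ⟨i, rfl⟩ := this
      exact ⟨i, by rw [hS]; exact hy', rfl⟩
    · rintro ⟨i, hi, rfl⟩
      rw [hS] at hi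
      exact ⟨_, hi, rfl⟩
  have k2 : (Subtype.val '' (((Equiv.setCongr hN).trans ((Equiv.ofInjective v hv).symm.trans
      ((Equiv.ofInjective w hw).trans (Equiv.setCongr hK.symm)))) '' I) : Set β) = w '' S := by
    have key : ∀ i, (((Equiv.setCongr hN).trans ((Equiv.ofInjective v hv).symm.trans
      ((Equiv.ofInjective w hw).trans (Equiv.setCongr hK.symm)))) ⟨v i, hmem i⟩ : β) = w i := by
      intro i
      simp only [Equiv.trans_apply, Equiv.setCongr_apply, Equiv.ofInjective_apply]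
      congr 1
      exact (Equiv.ofInjective v hv).symm_apply_apply i
    ext x
    constructor
    · rintro ⟨_, ⟨⟨y, hy⟩, hy', rfl⟩, rfl⟩
      have : y ∈ range v := hN ▸ hy
      obtain ⟨i, rfl⟩ := this
      exact ⟨i, by rw [hS]; exact hy', (key i).symm⟩
    · rintro ⟨i, hi, rfl⟩
      rw [hS] at hi
      exact ⟨_, ⟨_, hi, rfl⟩, key i⟩
  rw [k1, k2]
  exact h S

/-- The rank condition produces a minor which is a copy of the cycle matroid. -/
theorem HasK4.exists_minor {α : Type} {M : Matroid α} (hM : M.E.Finite) (h : HasK4 M) :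
    ∃ N, N ≤m M ∧ Iso N MK4 := by
  classical
  obtain ⟨C, v, h1, h2, h3, h4, h5⟩ := h.norm
  obtain ⟨I, hI⟩ := M.exists_isBasis' C
  have hr : range v ⊆ (M ／ C).E := by
    rintro _ ⟨i, rfl⟩
    exact ⟨h3 i, h4 i⟩
  refine ⟨(M ／ C) ↾ range v, ?_, ?_⟩
  · rw [← Matroid.delete_compl hr]
    exact ⟨C, _, rfl⟩
  · refine iso_of_range h2 edge_inj rfl (MK4_ground.trans range_edge.symm) fun S' => ?_
    obtain ⟨S, rfl⟩ : ∃ S : Finset (Fin 6), (S : Set (Fin 6)) = S' :=
      ⟨S'.toFinset, by simp⟩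
    rw [MK4_indep_image, Matroid.restrict_indep_iff, hI.contract_indep_iff]
    have hd : Disjoint C (v '' (S : Set (Fin 6))) := by
      rw [Set.disjoint_left]
      rintro t ht ⟨i, _, rfl⟩
      exact h4 i ht
    have hIC : I ⊆ C := hI.subset
    have hdI : Disjoint (v '' (S : Set (Fin 6))) I := (hd.mono_left hIC).symm
    have hfin : I.Finite := hM.subset hI.indep.subset_ground
    have hsub : v '' (S : Set (Fin 6)) ∪ I ⊆ M.E :=
      union_subset (by rintro _ ⟨i, _, rfl⟩; exact h3 i) hI.indep.subset_ground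
    have hrk : rk M (v '' (S : Set (Fin 6)) ∪ I) = rk M (C ∪ v '' (S : Set (Fin 6))) := by
      unfold rk
      rw [union_comm, hI.eRk_eq_eRk_union]
    have hrkI : rk M C = I.ncard := by
      rw [← rk_indep hM hI.indep]
      unfold rk
      rw [hI.eRk_eq_eRk]
    rw [indep_iff_rk hM hsub, hrk, h5, Set.ncard_union_eq hdI (Set.toFinite _) hfin,
      Set.ncard_image_of_injective _ h2, Set.ncard_coe_finset, hrkI]
    constructor
    · rintro ⟨⟨h6, _⟩, _⟩
      push_cast at h6
      linarith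
    · intro h6
      refine ⟨⟨?_, ?_⟩, image_subset_range _ _⟩
      · push_cast
        linarith
      · exact hd

end Pool.Agent.U356.CM
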