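import Pool.Agent.U356.CM.Basic

/-! The class of matroids without an `M(K₄)`-minor is closed under principal extension. -/

namespace Pool.Agent.U356.CM

open Set Pool.Agent.Helper442.FE

variable {α : Type} {M : Matroid α}

theorem rk_subst (hM : M.E.Finite) {D F : Set α} (X : Set α) {d : α} (hd : d ∈ F)
    (h : rk M (D ∪ F) ≤ rk M (insert d D)) :
    rk M (insert d (D ∪ X)) = rk M (D ∪ F ∪ X) := by
  apply le_antisymm
  · refine rk_mono hM ?_
    rintro t (rfl | ht | ht)
    · exact Or.inl (Or.inr hd)
    · exact Or.inl (Or.inl ht)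
    · exact Or.inr ht
  · have h1 := rk_submod_of hM (X := insert d (D ∪ X)) (Y := D ∪ F) (U := D ∪ F ∪ X)
      (I := insert d D) (by
        rintro t (ht | ht)
        · exact Or.inr ht
        · exact Or.inl (Or.inr (Or.inr ht)))
      (by
        rintro t (rfl | ht)
        · exact Or.inl rfl
        · exact Or.inr (Or.inl ht))
      (by
        rintro t (rfl | ht)
        · exact Or.inr hd
        · exact Or.inl ht)
    linarith

theorem image_update_of_notMem (v : Fin 6 → α) (p : Fin 6) (d : α) {S : Finset (Fin 6)}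
    (hp : p ∉ S) : Function.update v p d '' S = v '' (S : Set (Fin 6)) := by
  apply image_congr
  intro i hi
  have : i ≠ p := by
    rintro rfl
    exact hp hi
  simp [Function.update_of_ne this]

theorem image_update_of_mem (v : Fin 6 → α) (p : Fin 6) (d : α) {S : Finset (Fin 6)}
    (hp : p ∈ S) :
    Function.update v p d '' S = insert d (v '' (S.erase p : Finset (Fin 6))) := by
  ext t
  constructor
  · rintro ⟨i, hi, rfl⟩
    by_cases h : i = p
    · subst h
      left
      simp
    · right
      exact ⟨i, Finset.mem_coe.2 (Finset.mem_erase.2 ⟨h, hi⟩), by simp [Function.update_of_ne h]⟩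
  · rintro (rfl | ⟨i, hi, rfl⟩)
    · exact ⟨p, hp, by simp⟩
    · have h := Finset.mem_erase.1 (Finset.mem_coe.1 hi)
      exact ⟨i, h.2, by simp [Function.update_of_ne h.1]⟩

theorem rho_ge {S : Finset (Fin 6)} : S.card ≤ 3 → (S.card : ℤ) ≤ rho S + 1 := by
  revert S; decide

set_option maxRecDepth 100000 in
theorem lines_fact : ∀ L ∈ lines, ∀ L' ∈ lines, L ≠ L' → rho (L ∪ L') = 3 ∧
    ∃ p, L ∩ L' = {p} ∧ ∃ K ∈ lines, ∃ K' ∈ lines, K ≠ L ∧ K ≠ L' ∧ K' ≠ L ∧ K' ≠ L' ∧ K ≠ K' ∧
      K ∪ K' = Finset.univ.erase p ∧ ∃ q, K ∩ K' = {q} := by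
  decide

set_option maxRecDepth 100000 in
theorem lines_fact2 : ∀ L ∈ lines, ∀ L' ∈ lines, ∀ K ∈ lines, L ≠ L' → K ≠ L → K ≠ L' →
    ∃ p', L ∩ L' = {p'} ∧ ∃ q', L ∩ K = {q'} ∧ p' ≠ q' := by
  decide

set_option maxRecDepth 100000 in
theorem lines_fact3 : ∀ L ∈ lines, ∃ K1 ∈ lines, ∃ K2 ∈ lines, ∃ K3 ∈ lines,
    K1 ≠ L ∧ K2 ≠ L ∧ K3 ≠ L ∧ ∃ q, K1 ∩ K2 = {q} ∧ ∃ q1 q2, (K1 ∪ K2) ∩ K3 = {q1, q2} ∧
      q1 ≠ q2 ∧ K1 ∪ K2 ∪ K3 = Finset.univ := by
  decide

theorem rho_line : ∀ L ∈ lines, rho L = 2 := by decide

theorem rho_singleton : ∀ i : Fin 6, rho {i} = 1 := by decide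

theorem rho_erase_univ : ∀ i : Fin 6, rho (Finset.univ.erase i) = 3 := by decide

theorem rho_univ : rho Finset.univ = 3 := by decide

theorem rho_empty : rho ∅ = 0 := by decide

/-- The contraction of `C ∪ {p}`, with `p` replaced by a point of `F`. -/
theorem two_lines (hM : M.E.Finite) (C F : Set α) (v : Fin 6 → α)
    (hyp : ∀ S, min (g M C v S + 1) (h M C F v S) = 1 + rho S) (hu : g M C v Finset.univ = 4)
    (he : 2 ≤ h M C F v ∅)
    {p : Fin 6} (hp : h M C F v {p} ≤ 2) (hB : g M C v (Finset.univ.erase p) ≤ 3) :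
    HasK4 M := by
  have h0 := g_empty (M := M) C v
  have hp1 : g M C v {p} = 1 := by
    have h1 := hyp {p}
    rw [rho_singleton] at h1
    have h2 := g_singleton hM C v p
    omega
  have hp2 : h M C F v {p} = 2 := by
    have := h_mono hM C F v (Finset.empty_subset {p})
    omega
  have hB2 := hyp (Finset.univ.erase p)
  rw [rho_erase_univ] at hB2
  -- values of g
  have hgS : ∀ S : Finset (Fin 6), p ∉ S → g M C v S = rho S := by
    intro S hS
    have hSB : S ⊆ Finset.univ.erase p := fun i hi =>
      Finset.mem_erase.2 ⟨fun h => hS (h ▸ hi), Finset.mem_univ _⟩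
    have h1 := hg_sub hM C F v (S := S) (T := Finset.univ.erase p) (U := Finset.univ.erase p)
      (I := S) Finset.subset_union_right (Finset.subset_inter subset_rfl hSB)
    have h2 := hyp S
    omega
  have hgS' : ∀ S : Finset (Fin 6), p ∉ S → g M C v (insert p S) = rho S + 1 := by
    intro S hS
    have hSB : S ⊆ Finset.univ.erase p := fun i hi =>
      Finset.mem_erase.2 ⟨fun h => hS (h ▸ hi), Finset.mem_univ _⟩
    have h1 := g_sub hM C v (S := insert p S) (T := Finset.univ.erase p) (U := Finset.univ)
      (I := S) (by intro i _; by_cases h : i = p <;> simp [h])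
      (Finset.subset_inter (Finset.subset_insert _ _) hSB)
    have h2 := g_sub hM C v (S := S) (T := {p}) (U := insert p S) (I := ∅)
      (by intro i hi; simp only [Finset.mem_insert, Finset.mem_union, Finset.mem_singleton] at *; tauto)
      (Finset.empty_subset _)
    have h3 := hgS S hS
    omega
  have hhS : ∀ S : Finset (Fin 6), p ∈ S → h M C F v S = rho S + 1 := by
    intro S hS
    have h1 := hg_sub hM C F v (S := {p}) (T := S) (U := S) (I := {p})
      Finset.subset_union_right (by simpa using hS)
    have h2 := hyp S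
    omega
  -- choice of d
  have e1 : rk M (insert (v p) C) = rk M C + 1 := by
    have : C ∪ v '' (({p} : Finset (Fin 6)) : Set (Fin 6)) = insert (v p) C := by
      ext t
      simp only [Finset.coe_singleton, image_singleton, mem_union, mem_singleton_iff,
        mem_insert_iff]
      tauto
    unfold g at hp1
    rw [this] at hp1
    linarith
  have e2 : rk M (insert (v p) C ∪ F) = rk M C + 2 := by
    have : C ∪ F ∪ v '' (({p} : Finset (Fin 6)) : Set (Fin 6)) = insert (v p) C ∪ F := by
      ext t
      simp only [Finset.coe_singleton, image_singleton, mem_union, mem_singleton_iff,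
        mem_insert_iff]
      tauto
    unfold h at hp2
    rw [this] at hp2
    linarith
  obtain ⟨d, hd, hd'⟩ := exists_rk_insert hM (C := insert (v p) C) (F := F) (by omega)
  refine ⟨insert (v p) C, Function.update v p d, fun S => ?_⟩
  by_cases hS : p ∈ S
  · rw [image_update_of_mem v p d hS]
    have e3 : insert (v p) C ∪ insert d (v '' ((S.erase p : Finset (Fin 6)) : Set (Fin 6))) =
        insert d (insert (v p) C ∪ v '' ((S.erase p : Finset (Fin 6)) : Set (Fin 6))) := by
      ext t
      simp only [mem_union, mem_insert_iff]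
      tauto
    rw [e3, rk_subst hM _ hd (by omega)]
    have e4 : insert (v p) C ∪ F ∪ v '' ((S.erase p : Finset (Fin 6)) : Set (Fin 6)) =
        C ∪ F ∪ v '' (S : Set (Fin 6)) := by
      ext t
      simp only [mem_union, mem_insert_iff, Finset.coe_erase, mem_image, mem_sdiff,
        mem_singleton_iff, Finset.mem_coe]
      constructor
      · rintro (((rfl | h1) | h1) | ⟨i, ⟨h1, _⟩, rfl⟩)
        · exact Or.inr ⟨p, hS, rfl⟩
        · exact Or.inl (Or.inl h1)
        · exact Or.inl (Or.inr h1)
        · exact Or.inr ⟨i, h1, rfl⟩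
      · rintro ((h1 | h1) | ⟨i, h1, rfl⟩)
        · exact Or.inl (Or.inl (Or.inr h1))
        · exact Or.inl (Or.inr h1)
        · by_cases hi : i = p
          · subst hi
            exact Or.inl (Or.inl (Or.inl rfl))
          · exact Or.inr ⟨i, ⟨h1, hi⟩, rfl⟩
    rw [e4]
    have h5 := hhS S hS
    unfold h at h5
    linarith
  · rw [image_update_of_notMem v p d hS]
    have e4 : insert (v p) C ∪ v '' (S : Set (Fin 6)) =
        C ∪ v '' ((insert p S : Finset (Fin 6)) : Set (Fin 6)) := by
      ext t
      simp only [mem_union, mem_insert_iff, Finset.coe_insert, image_insert_eq]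
      tauto
    rw [e4]
    have h5 := hgS' S hS
    unfold g at h5
    linarith

/-- The new element is contracted. -/
theorem case_contract (hM : M.E.Finite) (C F : Set α) (v : Fin 6 → α)
    (hyp : ∀ S, min (g M C v S + 1) (h M C F v S) = 1 + rho S) : HasK4 M := by
  have h0 := g_empty (M := M) C v
  have hu := hyp Finset.univ
  rw [rho_univ] at hu
  have hgh := g_le_h hM C F v
  rcases le_or_gt (g M C v Finset.univ) 3 with h3 | h3
  · -- the element `e` is outside the closure
    refine ⟨C, v, fun S => ?_⟩
    have h1 := hg_sub hM C F v (S := S) (T := Finset.univ) (U := Finset.univ) (I := S)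
      Finset.subset_union_right (Finset.subset_inter subset_rfl (Finset.subset_univ _))
    have h2 := hyp S
    have h4 : g M C v S = rho S := by omega
    unfold g at h4
    linarith
  have hu4 : g M C v Finset.univ = 4 := by
    have := hgh Finset.univ
    omega
  rcases le_or_gt (h M C F v ∅) 1 with he | he
  · refine ⟨C ∪ F, v, fun S => ?_⟩
    have h1 := hg_sub hM C F v (S := ∅) (T := S) (U := S) (I := ∅)
      Finset.subset_union_right (Finset.empty_subset _)
    have h2 := hyp S
    have h5 := hyp ∅
    rw [rho_empty] at h5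
    have h4 : h M C F v S = h M C F v ∅ + rho S := by omega
    have h6 : h M C F v ∅ = rk M (C ∪ F) - rk M C := by
      unfold h
      simp
    rw [h6] at h4
    unfold h at h4
    linarith
  -- lines
  have hL : ∀ L ∈ lines, g M C v L = 2 ∨ (g M C v L = 3 ∧ h M C F v L = 3) := by
    intro L hL
    have h1 := hyp L
    rw [rho_line L hL] at h1
    have h2 := hgh L
    omega
  have hsing : ∀ i, 1 ≤ g M C v {i} := by
    intro i
    have h1 := hyp {i}
    rw [rho_singleton] at h1
    omega
  -- two lines with value three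
  have key : ∀ L ∈ lines, ∀ L' ∈ lines, L ≠ L' → g M C v L = 3 → g M C v L' = 3 →
      HasK4 M := by
    intro L hL1 L' hL1' hne hg hg'
    obtain ⟨hr, p, hp, K, hK, K', hK', hKL, hKL', hKL2, hKL2', hKK, hKB, q, hq⟩ :=
      lines_fact L hL1 L' hL1' hne
    have hpt : ∀ (L L' : Finset (Fin 6)) (p : Fin 6), L ∈ lines → L' ∈ lines → rho (L ∪ L') = 3 →
        L ∩ L' = {p} → g M C v L = 3 → g M C v L' = 3 → h M C F v {p} ≤ 2 := by
      intro L L' p hL1 hL1' hr hp hg hg'
      have h1 := h_sub hM C F v (S := L) (T := L') (U := L ∪ L') (I := {p}) subset_rfl hp.ge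
      have h2 := hyp (L ∪ L')
      rw [hr] at h2
      have h3 := hL L hL1
      have h4 := hL L' hL1'
      omega
    have hno : ∀ (K : Finset (Fin 6)), K ∈ lines → K ≠ L → K ≠ L' → g M C v K = 2 := by
      intro K hK hKL hKL'
      by_contra hcon
      have hK3 : g M C v K = 3 := by
        rcases hL K hK with h | h
        · exact absurd h hcon
        · exact h.1
      obtain ⟨p', hp', q', hq', hpq⟩ := lines_fact2 L hL1 L' hL1' K hK hne hKL hKL'
      have h1 := hpt L L' p' hL1 hL1' hr hp' hg hg'
      have h2 := hpt L K q' hL1 hK (lines_fact L hL1 K hK hKL.symm).1 hq' hg hK3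
      have h3 := h_sub hM C F v (S := {p'}) (T := {q'}) (U := {p', q'}) (I := ∅)
        (by intro i hi; simpa using hi) (Finset.empty_subset _)
      have h4 := hyp {p', q'}
      have h5 : rho {p', q'} = 2 := by
        unfold rho
        rw [Finset.card_pair hpq]
        simp
      rw [h5] at h4
      omega
    have hK2 := hno K hK hKL hKL'
    have hK2' := hno K' hK' hKL2 hKL2'
    refine two_lines hM C F v hyp hu4 (by omega) (p := p) (hpt L L' p hL1 hL1' hr hp hg hg') ?_
    have h1 := g_sub hM C v (S := K) (T := K') (U := Finset.univ.erase p) (I := {q}) hKB.ge hq.ge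
    have h2 := hsing q
    omega
  by_cases hex : ∃ L ∈ lines, ∃ L' ∈ lines, L ≠ L' ∧ g M C v L = 3 ∧ g M C v L' = 3
  · obtain ⟨L, h1, L', h2, h4, h5, h6⟩ := hex
    exact key L h1 L' h2 h4 h5 h6
  · exfalso
    -- three lines with value two
    have h3l : ∃ L ∈ lines, ∀ K ∈ lines, K ≠ L → g M C v K = 2 := by
      by_cases hex2 : ∃ L ∈ lines, g M C v L = 3
      · obtain ⟨L, h1, h2⟩ := hex2
        refine ⟨L, h1, fun K hK hKL => ?_⟩
        rcases hL K hK with h4 | h4
        · exact h4
        · exact absurd ⟨K, hK, L, h1, hKL, h4.1, h2⟩ hex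
      · refine ⟨{0, 1, 3}, by decide, fun K hK _ => ?_⟩
        rcases hL K hK with h4 | h4
        · exact h4
        · exact absurd ⟨K, hK, h4.1⟩ hex2
    obtain ⟨L, hL1, hK⟩ := h3l
    obtain ⟨K1, hK1, K2, hK2, K3, hK3, n1, n2, n3, q, e1, q1, q2, e2, e3, e4⟩ :=
      lines_fact3 L hL1
    have g1 := hK K1 hK1 n1
    have g2 := hK K2 hK2 n2
    have g3 := hK K3 hK3 n3
    have s1 := g_sub hM C v (S := K1) (T := K2) (U := K1 ∪ K2) (I := {q}) subset_rfl e1.ge
    have s2 := g_sub hM C v (S := K1 ∪ K2) (T := K3) (U := Finset.univ) (I := {q1, q2}) e4.ge e2.ge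
    have s3 := hsing q
    have s4 := hyp {q1, q2}
    have h5 : rho {q1, q2} = 2 := by
      unfold rho
      rw [Finset.card_pair e3]
      simp
    rw [h5] at s4
    omega


set_option maxRecDepth 100000 in
theorem lines_through : ∀ i : Fin 6, ∃ a b : Finset (Fin 6), i ∉ a ∧ i ∉ b ∧ a ∩ b = ∅ ∧
    rho a = 2 ∧ rho b = 2 ∧ rho (insert i a) = 2 ∧ rho (insert i b) = 2 ∧ rho (a ∪ b) = 3 := by
  decide

/-- The new element is an element of the minor. -/
theorem case_mem (hM : M.E.Finite) (C F : Set α) (v : Fin 6 → α) (i : Fin 6)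
    (h1 : ∀ S, i ∉ S → g M C v S = rho S)
    (h2 : ∀ S, i ∉ S → min (g M C v S + 1) (h M C F v S) = rho (insert i S)) : HasK4 M := by
  have h0 := g_empty (M := M) C v
  obtain ⟨a, b, ha, hb, hab, ra, rb, ra', rb', rab⟩ := lines_through i
  have hi : i ∉ a ∪ b := by simp [ha, hb]
  have k1 := h2 a ha
  have k2 := h2 b hb
  have k3 := h1 a ha
  have k4 := h1 b hb
  have k5 := h1 _ hi
  have k6 := g_le_h hM C F v (a ∪ b)
  have k7 := h_sub hM C F v (S := a) (T := b) (U := a ∪ b) (I := ∅) subset_rfl
    (Finset.empty_subset _)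
  have k8 := h2 ∅ (by simp)
  have k9 : rho (insert i ∅) = 1 := rho_singleton i
  have e0 : h M C F v ∅ = 1 := by omega
  have e2 : rk M (C ∪ F) = rk M C + 1 := by
    unfold h at e0
    simp only [Finset.coe_empty, image_empty, union_empty] at e0
    linarith
  obtain ⟨d, hd, hd'⟩ := exists_rk_insert hM (C := C) (F := F) (by omega)
  refine ⟨C, Function.update v i d, fun S => ?_⟩
  by_cases hS : i ∈ S
  · rw [image_update_of_mem v i d hS, union_insert, rk_subst hM _ hd (by omega)]
    have hne : i ∉ S.erase i := by simp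
    have m1 := h2 _ hne
    rw [Finset.insert_erase hS] at m1
    have m2 := hg_sub hM C F v (S := ∅) (T := S.erase i) (U := S.erase i) (I := ∅)
      Finset.subset_union_right (Finset.empty_subset _)
    have m3 : h M C F v (S.erase i) = rho S := by omega
    unfold h at m3
    linarith
  · rw [image_update_of_notMem v i d hS]
    have m1 := h1 S hS
    unfold g at m1
    linarith

/-- A principal extension of a matroid without an `M(K₄)`-minor has no `M(K₄)`-minor. -/
theorem hasK4_of_pext (hM : M.E.Finite) {M' : Matroid α} {e : α} {F : Set α}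
    (h1 : ∀ Z, e ∉ Z → rk M' Z = rk M Z)
    (h2 : ∀ Z, rk M' (insert e Z) = min (rk M Z + 1) (rk M (Z ∪ F))) (h : HasK4 M') :
    HasK4 M := by
  obtain ⟨C, v, hCv⟩ := h
  by_cases heC : e ∈ C
  · -- contracted
    have k0 : rk M' C = min (rk M C + 1) (rk M (C ∪ F)) := by
      rw [← h2 C, insert_eq_of_mem heC]
    rcases le_or_gt (rk M (C ∪ F)) (rk M C) with hle | hlt
    · -- `F` is in the closure of `C`
      have k1 : rk M (C ∪ F) = rk M C := le_antisymm hle (rk_mono hM subset_union_left)
      refine ⟨C, v, fun S => ?_⟩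
      have k2 := hCv S
      have k3 : rk M' (C ∪ v '' S) = min (rk M (C ∪ v '' S) + 1) (rk M (C ∪ v '' S ∪ F)) := by
        rw [← h2, insert_eq_of_mem (show e ∈ C ∪ v '' (S : Set (Fin 6)) from Or.inl heC)]
      have k4 : rk M (C ∪ v '' S ∪ F) = rk M (C ∪ v '' S) := by
        apply le_antisymm
        · have := rk_submod_of hM (X := C ∪ v '' S) (Y := C ∪ F) (U := C ∪ v '' S ∪ F) (I := C)
            (by intro t; simp only [mem_union]; tauto) subset_union_left subset_union_left
          linarith
        · exact rk_mono hM subset_union_left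
      omega
    · refine case_contract hM C F v fun S => ?_
      have k2 := hCv S
      have k3 : rk M' (C ∪ v '' S) = min (rk M (C ∪ v '' S) + 1) (rk M (C ∪ v '' S ∪ F)) := by
        rw [← h2, insert_eq_of_mem (show e ∈ C ∪ v '' (S : Set (Fin 6)) from Or.inl heC)]
      have k4 : C ∪ v '' S ∪ F = C ∪ F ∪ v '' S := by
        ext t
        simp only [mem_union]
        tauto
      rw [k4] at k3
      unfold g h
      omega
  · by_cases hev : ∃ i, v i = e
    · obtain ⟨i, hi⟩ := hev
      have hinj : ∀ j, v j = e → j = i := by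
        intro j hj
        by_contra hne
        have k1 := hCv {i}
        have k2 := hCv {i, j}
        have k3 : rho {i, j} = 2 := by
          unfold rho
          rw [Finset.card_pair (Ne.symm hne)]
          simp
        rw [rho_singleton] at k1
        rw [k3] at k2
        have k4 : v '' (({i, j} : Finset (Fin 6)) : Set (Fin 6)) =
            v '' (({i} : Finset (Fin 6)) : Set (Fin 6)) := by
          simp [image_insert_eq, hi, hj]
        rw [k4] at k2
        omega
      have hno : ∀ S : Finset (Fin 6), i ∉ S → e ∉ C ∪ v '' (S : Set (Fin 6)) := by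
        rintro S hS (h | ⟨j, hj, hj'⟩)
        · exact heC h
        · exact hS (hinj j hj' ▸ hj)
      have k0 := h1 C heC
      refine case_mem hM C F v i (fun S hS => ?_) (fun S hS => ?_)
      · have k1 := hCv S
        rw [h1 _ (hno S hS)] at k1
        unfold g
        linarith
      · have k1 := hCv (insert i S)
        have k2 : C ∪ v '' ((insert i S : Finset (Fin 6)) : Set (Fin 6)) =
            insert e (C ∪ v '' (S : Set (Fin 6))) := by
          rw [Finset.coe_insert, image_insert_eq, hi, union_insert]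
        rw [k2, h2] at k1
        have k4 : C ∪ v '' (S : Set (Fin 6)) ∪ F = C ∪ F ∪ v '' (S : Set (Fin 6)) := by
          ext t
          simp only [mem_union]
          tauto
        rw [k4] at k1
        unfold g h
        omega
    · refine ⟨C, v, fun S => ?_⟩
      have k1 := hCv S
      rw [h1 C heC, h1 _ (by
        rintro (h | ⟨j, _, hj'⟩)
        · exact heC h
        · exact hev ⟨j, hj'⟩)] at k1
      exact k1

end Pool.Agent.U356.CM
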